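import Pool.Agent.R271.Envelope
import Pool.Agent.R271.DyadicSchur

/-!
# A space with the Schur `p`-property whose Banach envelope fails the Schur property
-/

open Filter Topology Finset
open scoped ENNReal
open Pool.Agent.R271.DyadicAtoms Pool.Agent.R271.Envelope

namespace Pool.Agent.Results.MP_4b0054_an.SchurEnvelopeFails

variable {p : ℝ}

/-! ### The space -/

/-- The space of all sums of atoms. -/
noncomputable def XX (hp : 0 < p ∧ p < 1) : Submodule ℝ Arr where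
  carrier := {f | ∃ a, Adm p a ∧ Qf a = f}
  add_mem' := by
    rintro f g ⟨a, ha, rfl⟩ ⟨b, hb, rfl⟩
    exact ⟨a + b, ha.add hp.1 hp.2.le hb, Qf_add hp.1 hp.2.le ha hb⟩
  zero_mem' := ⟨0, Adm.zero hp.1, Qf_zero⟩
  smul_mem' := by
    rintro c f ⟨a, ha, rfl⟩
    exact ⟨c • a, ha.smul hp.1 c, Qf_smul c a⟩

/-- The `p`-th power of the quasi-norm. -/
noncomputable def nu (p : ℝ) (f : Arr) : ℝ≥0∞ := ⨅ (a : Arr) (_ : Adm p a ∧ Qf a = f), mm p a

/-- The quasi-norm. -/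
noncomputable def NN (hp : 0 < p ∧ p < 1) (f : XX hp) : ℝ := (nu p (f : Arr)).toReal ^ (1 / p)

lemma nu_le {a f : Arr} (ha : Adm p a) (hf : Qf a = f) : nu p f ≤ mm p a :=
  iInf₂_le a ⟨ha, hf⟩

lemma le_nu {f : Arr} {c : ℝ≥0∞} (h : ∀ a, Adm p a → Qf a = f → c ≤ mm p a) : c ≤ nu p f :=
  le_iInf₂ fun a ha => h a ha.1 ha.2

lemma exists_of_nu_lt {f : Arr} {c : ℝ≥0∞} (h : nu p f < c) :
    ∃ a, Adm p a ∧ Qf a = f ∧ mm p a < c := by
  rw [nu] at h
  simp only [iInf_lt_iff] at h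
  obtain ⟨a, ⟨h1, h2⟩, h3⟩ := h
  exact ⟨a, h1, h2, h3⟩

section
variable (hp : 0 < p ∧ p < 1)

lemma nu_ne_top (f : XX hp) : nu p (f : Arr) ≠ ∞ := by
  obtain ⟨a, ha, hf⟩ := f.2
  exact ne_top_of_le_ne_top ha.1 (nu_le ha hf)

include hp in
lemma nu_add_le (f g : Arr) : nu p (f + g) ≤ nu p f + nu p g := by
  refine ENNReal.le_of_forall_pos_le_add fun ε hε hfin => ?_
  have hf : nu p f ≠ ∞ := (ENNReal.add_lt_top.1 hfin).1.ne
  have hg : nu p g ≠ ∞ := (ENNReal.add_lt_top.1 hfin).2.ne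
  have hε2 : (ε : ℝ≥0∞) / 2 ≠ 0 := by
    rw [Ne, ENNReal.div_eq_zero_iff]
    simp [hε.ne']
  obtain ⟨a, ha1, ha2, ha3⟩ := exists_of_nu_lt (ENNReal.lt_add_right hf hε2)
  obtain ⟨b, hb1, hb2, hb3⟩ := exists_of_nu_lt (ENNReal.lt_add_right hg hε2)
  calc nu p (f + g) ≤ mm p (a + b) := nu_le (ha1.add hp.1 hp.2.le hb1) (by
        rw [Qf_add hp.1 hp.2.le ha1 hb1, ha2, hb2])
    _ ≤ mm p a + mm p b := mm_add_le hp.1 hp.2.le a b
    _ ≤ (nu p f + ε / 2) + (nu p g + ε / 2) := add_le_add ha3.le hb3.le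
    _ = nu p f + nu p g + (ε / 2 + ε / 2) := by ring
    _ = nu p f + nu p g + ε := by rw [ENNReal.add_halves]

include hp in
lemma nu_smul_le (c : ℝ) (f : Arr) (hf : nu p f ≠ ∞) : nu p (c • f) ≤ ‖c‖ₑ ^ p * nu p f := by
  have hc : ‖c‖ₑ ^ p ≠ ∞ := ENNReal.rpow_ne_top_of_nonneg hp.1.le enorm_ne_top
  refine ENNReal.le_of_forall_pos_le_add fun ε hε _ => ?_
  have h0 : (ε : ℝ≥0∞) / (‖c‖ₑ ^ p + 1) ≠ 0 := by
    rw [Ne, ENNReal.div_eq_zero_iff]
    simp [hε.ne', hc]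
  obtain ⟨a, ha1, ha2, ha3⟩ := exists_of_nu_lt (ENNReal.lt_add_right hf h0)
  calc nu p (c • f) ≤ mm p (c • a) := nu_le (ha1.smul hp.1 c) (by rw [Qf_smul, ha2])
    _ = ‖c‖ₑ ^ p * mm p a := mm_smul hp.1 c a
    _ ≤ ‖c‖ₑ ^ p * (nu p f + ε / (‖c‖ₑ ^ p + 1)) := by gcongr
    _ = ‖c‖ₑ ^ p * nu p f + ‖c‖ₑ ^ p * (ε / (‖c‖ₑ ^ p + 1)) := by ring
    _ ≤ ‖c‖ₑ ^ p * nu p f + (‖c‖ₑ ^ p + 1) * (ε / (‖c‖ₑ ^ p + 1)) := by
        gcongr
        exact le_self_add
    _ = ‖c‖ₑ ^ p * nu p f + ε := by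
        rw [ENNReal.mul_div_cancel (by simp) (by simp [hc])]

include hp in
lemma nu_zero : nu p 0 = 0 := by
  have := nu_le (p := p) (Adm.zero hp.1) Qf_zero
  rw [mm_zero hp.1] at this
  exact le_antisymm this zero_le

lemma nu_smul (c : ℝ) (f : XX hp) : nu p (c • (f : Arr)) = ‖c‖ₑ ^ p * nu p (f : Arr) := by
  apply le_antisymm (nu_smul_le hp c _ (nu_ne_top hp f))
  rcases eq_or_ne c 0 with rfl | hc
  · rw [enorm_zero, ENNReal.zero_rpow_of_pos hp.1, zero_mul]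
    exact zero_le
  · have h1 := nu_smul_le hp c⁻¹ _ (nu_ne_top hp (c • f))
    have h2 : c⁻¹ • ((c • f : XX hp) : Arr) = (f : Arr) := by
      rw [Submodule.coe_smul, smul_smul, inv_mul_cancel₀ hc, one_smul]
    rw [h2] at h1
    calc ‖c‖ₑ ^ p * nu p (f : Arr) ≤ ‖c‖ₑ ^ p * (‖c⁻¹‖ₑ ^ p * nu p ((c • f : XX hp) : Arr)) := by
          gcongr
      _ = nu p (c • (f : Arr)) := by
          rw [← mul_assoc, ← ENNReal.mul_rpow_of_nonneg _ _ hp.1.le, ← enorm_mul,
            mul_inv_cancel₀ hc, enorm_one, ENNReal.one_rpow, one_mul, Submodule.coe_smul]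

include hp in
lemma cell_le {f : Arr} (l j : ℕ) : ‖f l j‖ₑ ^ p ≤ theta p ^ (l ^ 2) * nu p f := by
  have hθ0 : theta p ^ (l ^ 2) ≠ 0 :=
    (lt_of_lt_of_le zero_lt_one (one_le_pow₀ (one_le_theta hp.1 hp.2.le))).ne'
  have hθ1 : theta p ^ (l ^ 2) ≠ ∞ := ENNReal.pow_ne_top (theta_ne_top hp.1)
  rw [mul_comm, ← ENNReal.div_le_iff hθ0 hθ1]
  apply le_nu
  rintro a ha rfl
  rw [ENNReal.div_le_iff hθ0 hθ1, mul_comm]
  refine (le_nn p _ j).trans ((nn_tsum_le hp.1 hp.2.le _).trans ?_)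
  exact tsum_nn_TT_le hp.1 hp.2.le a l

lemma eq_zero_of_nu (f : XX hp) (h : nu p (f : Arr) = 0) : f = 0 := by
  apply Subtype.ext
  funext l j
  have h1 := cell_le hp (f := (f : Arr)) l j
  rw [h, mul_zero, nonpos_iff_eq_zero, ENNReal.rpow_eq_zero_iff_of_pos hp.1, enorm_eq_zero] at h1
  exact h1

lemma NN_nonneg (f : XX hp) : 0 ≤ NN hp f := Real.rpow_nonneg ENNReal.toReal_nonneg _

lemma NN_lt_iff (f : XX hp) {ε : ℝ} (hε : 0 < ε) :
    NN hp f < ε ↔ nu p (f : Arr) < ENNReal.ofReal (ε ^ p) := by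
  rw [NN, one_div, Real.rpow_inv_lt_iff_of_pos ENNReal.toReal_nonneg hε.le hp.1,
    ENNReal.lt_ofReal_iff_toReal_lt (nu_ne_top hp f)]

lemma le_NN_iff (f : XX hp) {ε : ℝ} (hε : 0 ≤ ε) :
    ε ≤ NN hp f ↔ ENNReal.ofReal (ε ^ p) ≤ nu p (f : Arr) := by
  rw [NN, one_div, Real.le_rpow_inv_iff_of_pos hε ENNReal.toReal_nonneg hp.1,
    ENNReal.ofReal_le_iff_le_toReal (nu_ne_top hp f)]

lemma NN_smul (c : ℝ) (f : XX hp) : NN hp (c • f) = |c| * NN hp f := by
  rw [NN, NN, Submodule.coe_smul, nu_smul, ENNReal.toReal_mul, ← ENNReal.toReal_rpow,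
    toReal_enorm, Real.mul_rpow (by positivity) ENNReal.toReal_nonneg,
    ← Real.rpow_mul (norm_nonneg c), mul_one_div_cancel hp.1.ne', Real.rpow_one, Real.norm_eq_abs]

lemma NN_add (f g : XX hp) : NN hp (f + g) ≤ 2 ^ (1 / p) * (NN hp f + NN hp g) := by
  have hp' : 0 ≤ 1 / p := by have := hp.1; positivity
  set u := (nu p (f : Arr)).toReal with hu
  set v := (nu p (g : Arr)).toReal with hv
  have hu0 : 0 ≤ u := ENNReal.toReal_nonneg
  have hv0 : 0 ≤ v := ENNReal.toReal_nonneg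
  have h1 : (nu p ((f + g : XX hp) : Arr)).toReal ≤ u + v := by
    rw [hu, hv, ← ENNReal.toReal_add (nu_ne_top hp f) (nu_ne_top hp g)]
    exact ENNReal.toReal_mono (ENNReal.add_ne_top.2 ⟨nu_ne_top hp f, nu_ne_top hp g⟩)
      (nu_add_le hp _ _)
  have h2 : u + v ≤ 2 * max u v := by
    have := le_max_left u v
    have := le_max_right u v
    linarith
  calc NN hp (f + g) ≤ (2 * max u v) ^ (1 / p) :=
        Real.rpow_le_rpow ENNReal.toReal_nonneg (h1.trans h2) hp'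
    _ = 2 ^ (1 / p) * (max u v) ^ (1 / p) :=
        Real.mul_rpow (by norm_num) (le_max_of_le_left hu0)
    _ ≤ 2 ^ (1 / p) * (NN hp f + NN hp g) := by
        refine mul_le_mul_of_nonneg_left ?_ (by positivity)
        rcases max_choice u v with h | h
        · rw [h]
          exact le_add_of_nonneg_right (NN_nonneg hp g)
        · rw [h]
          exact le_add_of_nonneg_left (NN_nonneg hp f)

end

lemma mm_tsum_le (hp : 0 < p ∧ p < 1) (x : ℕ → Arr) :
    mm p (fun k j => ∑' i, x i k j) ≤ ∑' i, mm p (x i) := by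
  have h1 : ∀ k, nn p (fun j => ∑' i, x i k j) ≤ ∑' i, nn p (x i k) :=
    fun k => nn_tsum_le hp.1 hp.2.le _
  rw [mm]
  refine (ENNReal.tsum_le_tsum h1).trans (le_of_eq ?_)
  rw [ENNReal.tsum_comm]
  rfl

section complete
variable (hp : 0 < p ∧ p < 1)

lemma geom_tail (n : ℕ) : ∑' i : ℕ, (1 / 2 : ℝ≥0∞) ^ (i + n) = 2 * (1 / 2) ^ n := by
  simp only [pow_add]
  rw [ENNReal.tsum_mul_right, ENNReal.tsum_geometric]
  congr 1
  rw [one_div, ENNReal.one_sub_inv_two, inv_inv]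

lemma NN_complete (u : ℕ → XX hp)
    (hu : ∀ ε : ℝ, 0 < ε → ∃ n₀, ∀ m n, n₀ ≤ m → n₀ ≤ n → NN hp (u m - u n) < ε) :
    ∃ x, Tendsto (fun n => NN hp (u n - x)) atTop (𝓝 0) := by
  have hp0 := hp.1
  have hp1 := hp.2.le
  have hP : ∀ n : ℕ, ∀ᶠ m in atTop, ∀ m', m ≤ m' →
      nu p ((u m' - u m : XX hp) : Arr) < (1 / 2) ^ n := by
    intro n
    obtain ⟨n₀, hn₀⟩ := hu (((1 / 2) ^ n) ^ (1 / p)) (by positivity)
    filter_upwards [eventually_ge_atTop n₀] with m hm m' hm'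
    have h1 := (NN_lt_iff hp _ (by positivity)).1 (hn₀ m' m (hm.trans hm') hm)
    rw [← Real.rpow_mul (by positivity), one_div_mul_cancel hp0.ne', Real.rpow_one,
      ENNReal.ofReal_pow (by norm_num)] at h1
    have h2 : ENNReal.ofReal (1 / 2) = 1 / 2 := by
      rw [ENNReal.ofReal_div_of_pos two_pos]
      simp
    rwa [h2] at h1
  obtain ⟨φ, hφ, hφP⟩ := extraction_forall_of_eventually hP
  have hb : ∀ n, ∃ b, Adm p b ∧ Qf b = ((u (φ (n + 1)) - u (φ n) : XX hp) : Arr) ∧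
      mm p b < (1 / 2) ^ n := fun n =>
    exists_of_nu_lt (hφP n (φ (n + 1)) (hφ.monotone (Nat.le_succ n)))
  choose b hb1 hb2 hb3 using hb
  let bs : ℕ → Arr := fun n => fun k j => ∑' i, b (i + n) k j
  have hbs : ∀ n, mm p (bs n) ≤ 2 * (1 / 2) ^ n := by
    intro n
    refine (mm_tsum_le hp fun i => b (i + n)).trans ?_
    rw [← geom_tail]
    exact ENNReal.tsum_le_tsum fun i => (hb3 (i + n)).le
  have hbst : ∀ n, mm p (bs n) ≠ ∞ := fun n =>
    ne_top_of_le_ne_top (ENNReal.mul_ne_top (by norm_num) (ENNReal.pow_ne_top (by simp))) (hbs n)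
  have hbsa : ∀ n, Adm p (bs n) := by
    intro n
    refine ⟨hbst n, fun k j hj => ?_⟩
    show ∑' i, b (i + n) k j = 0
    simp only [fun i => (hb1 (i + n)).2 k j hj]
    exact tsum_zero
  have hsum : ∀ k j, Summable fun i => b i k j := by
    intro k j
    refine summable_of_nn hp0 hp1 (x := fun i => b i k) ?_ j
    refine ne_top_of_le_ne_top (ENNReal.mul_ne_top (a := 2) (b := (1 / 2) ^ 0) (by norm_num)
      (by simp)) ?_
    rw [← geom_tail]
    exact ENNReal.tsum_le_tsum fun i => (nn_le_mm p (b i) k).trans (hb3 i).le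
  have hsplit : ∀ n, bs 0 = ∑ i ∈ range n, b i + bs n := by
    intro n
    funext k j
    show ∑' i, b (i + 0) k j = (∑ i ∈ range n, b i) k j + ∑' i, b (i + n) k j
    rw [Finset.sum_apply, Finset.sum_apply]
    simp only [add_zero]
    exact ((hsum k j).sum_add_tsum_nat_add n).symm
  have hQs : ∀ n, Qf (∑ i ∈ range n, b i) = ((u (φ n) - u (φ 0) : XX hp) : Arr) := by
    intro n
    rw [Qf_sum hp0 hp1 _ fun i _ => hb1 i, Finset.sum_congr rfl fun i _ => hb2 i,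
      ← Finset.sum_range_sub (fun i => u (φ i)) n, Submodule.coe_sum]
  let x : XX hp := u (φ 0) + ⟨Qf (bs 0), bs 0, hbsa 0, rfl⟩
  have hx : ∀ n, ((x - u (φ n) : XX hp) : Arr) = Qf (bs n) := by
    intro n
    have h1 : Qf (bs 0) = ((u (φ n) - u (φ 0) : XX hp) : Arr) + Qf (bs n) := by
      rw [hsplit n, Qf_add hp0 hp1 (Adm.sum hp0 hp1 _ fun i _ => hb1 i) (hbsa n), hQs]
    show ((u (φ 0) : XX hp) : Arr) + Qf (bs 0) - (u (φ n) : Arr) = Qf (bs n)
    rw [h1, Submodule.coe_sub]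
    abel
  have hbound : ∀ n m, φ n ≤ m → nu p ((x - u m : XX hp) : Arr) ≤ 3 * (1 / 2) ^ n := by
    intro n m hm
    have h1 : ((x - u m : XX hp) : Arr) = ((x - u (φ n) : XX hp) : Arr) +
        (-1 : ℝ) • ((u m - u (φ n) : XX hp) : Arr) := by
      simp only [Submodule.coe_sub, neg_one_smul]
      abel
    rw [h1]
    refine (nu_add_le hp _ _).trans ?_
    rw [nu_smul, enorm_neg, enorm_one, ENNReal.one_rpow, one_mul]
    have h5 : nu p ((x - u (φ n) : XX hp) : Arr) ≤ 2 * (1 / 2) ^ n := by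
      rw [hx]
      exact (nu_le (hbsa n) rfl).trans (hbs n)
    refine (add_le_add h5 (hφP n m hm).le).trans (le_of_eq ?_)
    ring
  refine ⟨x, ?_⟩
  rw [Metric.tendsto_atTop]
  intro ε hε
  have h1 : Tendsto (fun n : ℕ => 3 * (1 / 2 : ℝ≥0∞) ^ n) atTop (𝓝 0) := by
    have := ENNReal.Tendsto.const_mul (a := 3)
      (ENNReal.tendsto_pow_atTop_nhds_zero_of_lt_one (r := 1 / 2) (by
        rw [one_div]; exact ENNReal.inv_lt_one.2 (by norm_num)))
      (Or.inr (by norm_num))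
    rwa [mul_zero] at this
  have h2 : (0 : ℝ≥0∞) < ENNReal.ofReal (ε ^ p) := ENNReal.ofReal_pos.2 (by positivity)
  obtain ⟨n, hn⟩ := (h1.eventually (gt_mem_nhds h2)).exists
  refine ⟨φ n, fun m hm => ?_⟩
  rw [Real.dist_eq, sub_zero, abs_of_nonneg (NN_nonneg hp _), NN_lt_iff hp _ hε]
  have h3 : ((u m - x : XX hp) : Arr) = (-1 : ℝ) • ((x - u m : XX hp) : Arr) := by
    simp only [Submodule.coe_sub, neg_one_smul]
    abel
  rw [h3, nu_smul, enorm_neg, enorm_one, ENNReal.one_rpow, one_mul]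
  exact (hbound n m hm).trans_lt hn

lemma isQuasiBanach : IsQuasiBanach (NN hp) where
  nonneg := NN_nonneg hp
  eq_zero x hx := by
    apply eq_zero_of_nu hp
    rw [NN, Real.rpow_eq_zero ENNReal.toReal_nonneg (by have := hp.1; positivity),
      ENNReal.toReal_eq_zero_iff] at hx
    exact hx.resolve_right (nu_ne_top hp x)
  smul := NN_smul hp
  add_le := ⟨2 ^ (1 / p), Real.one_le_rpow (by norm_num) (by have := hp.1; positivity), NN_add hp⟩
  complete := NN_complete hp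

/-! ### The Schur `p`-property -/

lemma toReal_sum_enorm (hp0 : 0 < p) (s : Finset ℕ) (c : ℕ → ℝ) :
    (∑ j ∈ s, ‖c j‖ₑ ^ p).toReal = ∑ j ∈ s, |c j| ^ p := by
  rw [ENNReal.toReal_sum fun j _ => ENNReal.rpow_ne_top_of_nonneg hp0.le enorm_ne_top]
  refine Finset.sum_congr rfl fun j _ => ?_
  rw [← ENNReal.toReal_rpow, toReal_enorm, Real.norm_eq_abs]

lemma schurP : SchurP (NN hp) p := by
  have hp0 := hp.1
  have hp1 := hp.2.le
  intro T hT ⟨C, hC⟩ ⟨δ, hδ, hsep⟩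
  let f := hT.natEmbedding T
  set K : ℝ≥0∞ := ENNReal.ofReal ((max C 0) ^ p) + 1 with hK
  have hKt : K ≠ ∞ := by simp [hK]
  have hrep : ∀ n, ∃ a, Adm p a ∧ Qf a = ((f n : XX hp) : Arr) ∧ mm p a < K := by
    intro n
    apply exists_of_nu_lt
    have h1 : NN hp (f n : XX hp) ≤ max C 0 := (hC _ (f n).2).trans (le_max_left _ _)
    have h2 : (nu p ((f n : XX hp) : Arr)).toReal ≤ (max C 0) ^ p := by
      rw [NN, one_div, Real.rpow_inv_le_iff_of_pos ENNReal.toReal_nonneg (le_max_right _ _)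
        hp0] at h1
      exact h1
    have h3 : nu p ((f n : XX hp) : Arr) ≤ ENNReal.ofReal ((max C 0) ^ p) :=
      (ENNReal.le_ofReal_iff_toReal_le (nu_ne_top hp _) (by positivity)).2 h2
    exact h3.trans_lt (ENNReal.lt_add_right ENNReal.ofReal_ne_top one_ne_zero)
  choose a ha1 ha2 ha3 using hrep
  set d : ℝ≥0∞ := ENNReal.ofReal (δ ^ p) with hd
  have hd0 : 0 < d := ENNReal.ofReal_pos.2 (by positivity)
  obtain ⟨ψ, hψ⟩ := main_seq hp0 hp.2 ha1 hKt (fun n => (ha3 n).le) hd0 ENNReal.ofReal_ne_top (by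
    intro n m hnm b hb hQ
    have hne : (f n : XX hp) ≠ (f m : XX hp) := fun h =>
      hnm (f.injective (Subtype.ext h))
    have h1 := (le_NN_iff hp _ hδ.le).1 (hsep _ (f n).2 _ (f m).2 hne)
    refine h1.trans (nu_le hb ?_)
    rw [hQ, ha2, ha2, Submodule.coe_sub])
  refine ⟨fun j => (f (ψ j) : XX hp), fun j => (f (ψ j)).2, (δ ^ p / 16) ^ (1 / p),
    K.toReal ^ (1 / p), by positivity, ?_, fun c => ?_⟩
  · have : 1 ≤ K.toReal := by
      rw [← ENNReal.toReal_one]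
      exact ENNReal.toReal_mono hKt (by rw [hK]; exact le_add_self)
    positivity
  obtain ⟨n, hn⟩ : ∃ n, c.support ⊆ range n := by
    obtain ⟨n, hn⟩ := c.support.exists_nat_subset_range
    exact ⟨n, hn⟩
  have e1 : (c.sum fun _ t => |t| ^ p) = ∑ j ∈ range n, |c j| ^ p :=
    Finsupp.sum_of_support_subset _ hn _ (fun i _ => by rw [abs_zero, Real.zero_rpow hp0.ne'])
  have e2 : (c.sum fun j t => t • (f (ψ j) : XX hp)) = ∑ j ∈ range n, c j • (f (ψ j) : XX hp) :=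
    Finsupp.sum_of_support_subset _ hn _ (fun i _ => zero_smul _ _)
  rw [e1, e2]
  set F : XX hp := ∑ j ∈ range n, c j • (f (ψ j) : XX hp) with hF
  have hFc : (F : Arr) = Qf (∑ j ∈ range n, c j • a (ψ j)) := by
    rw [hF, Submodule.coe_sum, Qf_sum hp0 hp1 _ fun j _ => (ha1 _).smul hp0 _]
    refine Finset.sum_congr rfl fun j _ => ?_
    rw [Submodule.coe_smul, Qf_smul, ha2]
  set s : ℝ≥0∞ := ∑ j ∈ range n, ‖c j‖ₑ ^ p with hs
  have hsr : s.toReal = ∑ j ∈ range n, |c j| ^ p := toReal_sum_enorm hp0 _ _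
  have hst : s ≠ ∞ := ENNReal.sum_ne_top.2 fun j _ =>
    ENNReal.rpow_ne_top_of_nonneg hp0.le enorm_ne_top
  rw [← hsr]
  have hp' : 0 ≤ 1 / p := by positivity
  constructor
  · have h1 : d / 16 * s ≤ nu p (F : Arr) := by
      apply le_nu
      intro α hα hQ
      have h2 := hψ c n α hα (by rw [hQ, hFc])
      rw [← hs] at h2
      have h3 : 2 * (d / 16 * s) ≤ 2 * mm p α := by
        refine le_trans (le_of_eq ?_) h2
        rw [← mul_assoc]
        congr 1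
        have : (16 : ℝ≥0∞) = 2 * 8 := by norm_num
        rw [this, ← mul_div_assoc, ENNReal.mul_div_mul_left _ _ (by norm_num) (by norm_num)]
      exact (ENNReal.mul_le_mul_iff_right (by norm_num) (by norm_num)).1 h3
    have h4 := ENNReal.toReal_mono (nu_ne_top hp F) h1
    rw [ENNReal.toReal_mul, ENNReal.toReal_div, hd, ENNReal.toReal_ofReal (by positivity)] at h4
    have h5 : ((16 : ℝ≥0∞)).toReal = 16 := by simp
    rw [h5] at h4
    calc (δ ^ p / 16) ^ (1 / p) * s.toReal ^ (1 / p) = (δ ^ p / 16 * s.toReal) ^ (1 / p) :=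
          (Real.mul_rpow (by positivity) ENNReal.toReal_nonneg).symm
      _ ≤ NN hp F := Real.rpow_le_rpow (by positivity) h4 hp'
  · have h1 : nu p (F : Arr) ≤ K * s := by
      refine (nu_le (Adm.sum hp0 hp1 _ fun j _ => (ha1 (ψ j)).smul hp0 (c j)) hFc.symm).trans ?_
      refine (mm_sum_le hp0 hp1 _ _).trans ?_
      rw [hs, Finset.mul_sum]
      refine Finset.sum_le_sum fun j _ => ?_
      rw [mm_smul hp0, mul_comm]
      exact mul_le_mul_left (ha3 _).le _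
    have h4 := ENNReal.toReal_mono (ENNReal.mul_ne_top hKt hst) h1
    rw [ENNReal.toReal_mul] at h4
    calc NN hp F ≤ (K.toReal * s.toReal) ^ (1 / p) :=
          Real.rpow_le_rpow ENNReal.toReal_nonneg h4 hp'
      _ = K.toReal ^ (1 / p) * s.toReal ^ (1 / p) :=
          Real.mul_rpow ENNReal.toReal_nonneg ENNReal.toReal_nonneg

end complete

/-! ### The envelope -/

section envelope
variable (hp : 0 < p ∧ p < 1)

lemma mm_one_le (a : Arr) : mm 1 a ^ p ≤ mm p a ∨ ¬ (0 < p ∧ p < 1) := by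
  by_cases h : 0 < p ∧ p < 1
  · left
    rw [mm_eq_tsum, mm_eq_tsum]
    simp only [ENNReal.rpow_one]
    exact tsum_rpow_le _ h.1 h.2.le
  · exact Or.inr h

lemma sum_level_le (f : XX hp) (k n : ℕ) : ∑ j ∈ range n, |(f : Arr) k j| ≤ NN hp f := by
  have hp0 := hp.1
  rw [le_NN_iff hp f (Finset.sum_nonneg fun _ _ => abs_nonneg _)]
  apply le_nu
  intro a ha hf
  have h1 : (∑ j ∈ range n, ‖(f : Arr) k j‖ₑ) ≤ mm 1 a := by
    calc ∑ j ∈ range n, ‖(f : Arr) k j‖ₑ ≤ ∑' j, ‖(f : Arr) k j‖ₑ := ENNReal.sum_le_tsum _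
      _ = nn 1 ((f : Arr) k) := by
          rw [nn]
          simp only [ENNReal.rpow_one]
      _ = nn 1 (Qf a k) := by rw [hf]
      _ ≤ ∑' i, nn 1 (TT (i ^ 2) (k ^ 2) (a i)) :=
          nn_tsum_le one_pos le_rfl fun i => TT (i ^ 2) (k ^ 2) (a i)
      _ ≤ theta 1 ^ (k ^ 2) * mm 1 a := tsum_nn_TT_le one_pos le_rfl a k
      _ = mm 1 a := by rw [theta_one, one_pow, one_mul]
  have h2 : ENNReal.ofReal ((∑ j ∈ range n, |(f : Arr) k j|) ^ p) =
      (∑ j ∈ range n, ‖(f : Arr) k j‖ₑ) ^ p := by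
    rw [← ENNReal.ofReal_rpow_of_nonneg (Finset.sum_nonneg fun _ _ => abs_nonneg _) hp0.le,
      ENNReal.ofReal_sum_of_nonneg fun _ _ => abs_nonneg _]
    congr 1
    refine Finset.sum_congr rfl fun j _ => ?_
    rw [← Real.norm_eq_abs, ofReal_norm]
  rw [h2]
  exact (ENNReal.rpow_le_rpow h1 hp0.le).trans ((mm_one_le a).resolve_right fun h => h hp)

/-- An element of the space given by coefficients of one level. -/
noncomputable def el (k : ℕ) (g : ℕ → ℝ) : XX hp :=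
  ⟨Qf (lev k fun j => if j < 2 ^ (k ^ 2) then g j else 0), _, by
    refine ⟨?_, ?_⟩
    · rw [mm_lev hp.1, nn_eq_sum hp.1 (n := 2 ^ (k ^ 2)) fun j hj => if_neg (not_lt.2 hj)]
      exact ENNReal.sum_ne_top.2 fun j _ => ENNReal.rpow_ne_top_of_nonneg hp.1.le enorm_ne_top
    · intro i j hj
      by_cases hi : i = k
      · subst hi
        rw [lev_self, if_neg (not_lt.2 hj)]
      · rw [lev_ne hi]
        rfl, rfl⟩

lemma el_coe {k : ℕ} {g : ℕ → ℝ} (hg : ∀ j, 2 ^ (k ^ 2) ≤ j → g j = 0) :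
    ((el hp k g : XX hp) : Arr) = Qf (lev k g) := by
  show Qf (lev k fun j => if j < 2 ^ (k ^ 2) then g j else 0) = Qf (lev k g)
  congr 2
  funext j
  by_cases hj : j < 2 ^ (k ^ 2)
  · rw [if_pos hj]
  · rw [if_neg hj, hg j (not_lt.1 hj)]

lemma single_supp {k j : ℕ} (hj : j < 2 ^ (k ^ 2)) :
    ∀ i, 2 ^ (k ^ 2) ≤ i → (Pi.single j 1 : ℕ → ℝ) i = 0 := fun i hi =>
  Pi.single_eq_of_ne (by omega) _

lemma adm_lev {k : ℕ} {g : ℕ → ℝ} (hp0 : 0 < p) (hg : ∀ j, 2 ^ (k ^ 2) ≤ j → g j = 0) :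
    Adm p (lev k g) := by
  refine ⟨?_, ?_⟩
  · rw [mm_lev hp0, nn_eq_sum hp0 hg]
    exact ENNReal.sum_ne_top.2 fun j _ => ENNReal.rpow_ne_top_of_nonneg hp0.le enorm_ne_top
  · intro i j hj
    by_cases hi : i = k
    · subst hi
      rw [lev_self, hg j hj]
    · rw [lev_ne hi]
      rfl

lemma NN_single_le {k j : ℕ} (hj : j < 2 ^ (k ^ 2)) :
    NN hp (el hp k (Pi.single j 1)) ≤ 1 := by
  have hp0 := hp.1
  have h1 : nu p ((el hp k (Pi.single j 1) : XX hp) : Arr) ≤ 1 := by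
    rw [el_coe hp (single_supp hj)]
    refine (nu_le (adm_lev hp0 (single_supp hj)) rfl).trans (le_of_eq ?_)
    rw [mm_lev hp0, nn, tsum_eq_single j]
    · rw [Pi.single_eq_same, enorm_one, ENNReal.one_rpow]
    · intro i hi
      rw [Pi.single_eq_of_ne hi, enorm_zero, ENNReal.zero_rpow_of_pos hp0]
  have h2 := ENNReal.toReal_mono ENNReal.one_ne_top h1
  rw [ENNReal.toReal_one] at h2
  exact Real.rpow_le_one ENNReal.toReal_nonneg h2 (by positivity)

lemma el_eq_sum (k : ℕ) (g : ℕ → ℝ) :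
    el hp k g = ∑ j ∈ range (2 ^ (k ^ 2)), g j • el hp k (Pi.single j 1) := by
  have hp0 := hp.1
  have hp1 := hp.2.le
  apply Subtype.ext
  rw [Submodule.coe_sum]
  have h1 : ∀ j ∈ range (2 ^ (k ^ 2)), ((g j • el hp k (Pi.single j 1) : XX hp) : Arr) =
      Qf (g j • lev k (Pi.single j 1)) := by
    intro j hj
    rw [Submodule.coe_smul, el_coe hp (single_supp (Finset.mem_range.1 hj)), Qf_smul]
  rw [Finset.sum_congr rfl h1, ← Qf_sum hp0 hp1 _ fun j hj =>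
    (adm_lev hp0 (single_supp (Finset.mem_range.1 hj))).smul hp0 _]
  show Qf (lev k fun j => if j < 2 ^ (k ^ 2) then g j else 0) = _
  congr 1
  funext i
  rw [Finset.sum_apply]
  simp only [Pi.smul_apply]
  by_cases hi : i = k
  · subst hi
    simp only [lev_self]
    funext l
    rw [Finset.sum_apply]
    simp only [Pi.smul_apply, smul_eq_mul, Pi.single_apply, mul_ite, mul_one, mul_zero,
      Finset.sum_ite_eq, Finset.mem_range]
  · simp only [lev_ne hi, smul_zero, Finset.sum_const_zero]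

lemma norm_J_el_le {Y : Type} [NormedAddCommGroup Y] [NormedSpace ℝ Y] {J : XX hp →ₗ[ℝ] Y}
    (hJ : ∀ x, ‖J x‖ ≤ NN hp x) (k : ℕ) (g : ℕ → ℝ) :
    ‖J (el hp k g)‖ ≤ ∑ j ∈ range (2 ^ (k ^ 2)), |g j| := by
  rw [el_eq_sum, map_sum]
  refine (norm_sum_le _ _).trans (Finset.sum_le_sum fun j hj => ?_)
  rw [map_smul, norm_smul, Real.norm_eq_abs]
  calc |g j| * ‖J (el hp k (Pi.single j 1))‖ ≤ |g j| * 1 :=
        mul_le_mul_of_nonneg_left ((hJ _).trans (NN_single_le hp (Finset.mem_range.1 hj)))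
          (abs_nonneg _)
    _ = |g j| := mul_one _

/-- The coefficients of the Rademacher functions. -/
noncomputable def rad (m : ℕ) (j : ℕ) : ℝ := if j < 2 ^ m then (-1) ^ j * (1 / 2) ^ m else 0

lemma rad_supp (m : ℕ) : ∀ j, 2 ^ m ≤ j → rad m j = 0 := fun _ hj => if_neg (not_lt.2 hj)

/-- The coefficients of the sums of Rademacher functions. -/
noncomputable def GG (c : ℕ → ℝ) : ℕ → ℕ → ℝ
  | 0 => 0
  | n + 1 => (S ^ (2 * n + 1)) (GG c n) + c n • rad ((n + 1) ^ 2)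

lemma GG_supp (c : ℕ → ℝ) (n : ℕ) : ∀ j, 2 ^ (n ^ 2) ≤ j → GG c n j = 0 := by
  induction n with
  | zero => exact fun _ _ => rfl
  | succ n ih =>
    intro j hj
    rw [GG, Pi.add_apply, Pi.smul_apply, rad_supp _ j hj, smul_zero, add_zero]
    apply S_pow_support ih
    rwa [show n ^ 2 + (2 * n + 1) = (n + 1) ^ 2 by ring]

lemma el_GG (c : ℕ → ℝ) (n : ℕ) : el hp n (GG c n) =
    ∑ i ∈ range n, c i • el hp (i + 1) (rad ((i + 1) ^ 2)) := by
  have hp0 := hp.1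
  have hp1 := hp.2.le
  induction n with
  | zero =>
    rw [Finset.range_zero, Finset.sum_empty, el_eq_sum]
    exact Finset.sum_eq_zero fun _ _ => zero_smul _ _
  | succ n ih =>
    rw [Finset.sum_range_succ, ← ih]
    apply Subtype.ext
    rw [Submodule.coe_add, Submodule.coe_smul, el_coe hp (GG_supp c (n + 1)),
      el_coe hp (GG_supp c n), el_coe hp (rad_supp _)]
    funext l
    have key : TT (n ^ 2) (l ^ 2) (GG c n) =
        TT ((n + 1) ^ 2) (l ^ 2) ((S ^ (2 * n + 1)) (GG c n)) := by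
      have h1 : (n + 1) ^ 2 - n ^ 2 = 2 * n + 1 := by
        rw [show (n + 1) ^ 2 = n ^ 2 + (2 * n + 1) by ring, Nat.add_sub_cancel_left]
      rw [← TT_shift (Nat.pow_le_pow_left (Nat.le_succ n) 2) (l ^ 2), Nat.succ_eq_add_one, h1]
      rfl
    rw [Qf_lev, Pi.add_apply, Pi.smul_apply, Qf_lev, Qf_lev, GG, map_add, map_smul, key]

lemma sum_pairs (F : ℕ → ℝ) (M : ℕ) :
    ∑ j ∈ range (2 * M), F j = ∑ i ∈ range M, (F (2 * i) + F (2 * i + 1)) := by
  induction M with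
  | zero => simp
  | succ M ih =>
    rw [show 2 * (M + 1) = 2 * M + 1 + 1 by ring, Finset.sum_range_succ, Finset.sum_range_succ,
      Finset.sum_range_succ, ih]
    ring

/-- The energy. -/
noncomputable def en (m : ℕ) (g : ℕ → ℝ) : ℝ := 2 ^ m * ∑ j ∈ range (2 ^ m), g j ^ 2

lemma S_even (g : ℕ → ℝ) (i : ℕ) : S g (2 * i) = 1 / 2 * g i := by
  rw [S_apply, Nat.mul_div_cancel_left i two_pos]

lemma S_odd (g : ℕ → ℝ) (i : ℕ) : S g (2 * i + 1) = 1 / 2 * g i := by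
  rw [S_apply, show (2 * i + 1) / 2 = i by omega]

lemma en_S (m : ℕ) (g : ℕ → ℝ) : en (m + 1) (S g) = en m g := by
  rw [en, en, show 2 ^ (m + 1) = 2 * 2 ^ m by ring, sum_pairs]
  simp only [S_even, S_odd]
  have : ∀ i, (1 / 2 * g i) ^ 2 + (1 / 2 * g i) ^ 2 = 1 / 2 * g i ^ 2 := fun i => by ring
  simp only [this]
  rw [← Finset.mul_sum]
  ring

lemma en_S_pow (m a : ℕ) (g : ℕ → ℝ) : en (m + a) ((S ^ a) g) = en m g := by
  induction a with
  | zero => rfl
  | succ a ih => rw [← add_assoc, pow_succ', Module.End.mul_apply, en_S, ih]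

lemma en_rad (m : ℕ) : en m (rad m) = 1 := by
  rw [en]
  have : ∀ j ∈ range (2 ^ m), rad m j ^ 2 = (1 / 4) ^ m := by
    intro j hj
    rw [rad, if_pos (Finset.mem_range.1 hj), mul_pow, ← pow_mul, mul_comm j 2, pow_mul,
      neg_one_sq, one_pow, one_mul, ← pow_mul, mul_comm m 2, pow_mul]
    norm_num
  rw [Finset.sum_congr rfl this, Finset.sum_const, Finset.card_range, nsmul_eq_mul]
  push_cast
  rw [← mul_assoc, ← mul_pow, ← mul_pow]
  norm_num

lemma cross (m : ℕ) (g : ℕ → ℝ) : ∑ j ∈ range (2 ^ (m + 1)), S g j * rad (m + 1) j = 0 := by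
  rw [show 2 ^ (m + 1) = 2 * 2 ^ m by ring, sum_pairs]
  refine Finset.sum_eq_zero fun i hi => ?_
  have hi' := Finset.mem_range.1 hi
  have h1 : 2 ^ (m + 1) = 2 * 2 ^ m := by ring
  rw [S_even, S_odd, rad, rad, if_pos (by omega), if_pos (by omega), pow_succ (-1 : ℝ) (2 * i)]
  ring

lemma en_GG (c : ℕ → ℝ) (n : ℕ) : en (n ^ 2) (GG c n) = ∑ i ∈ range n, c i ^ 2 := by
  induction n with
  | zero => simp [en, GG]
  | succ n ih =>
    rw [Finset.sum_range_succ, ← ih, GG]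
    have h1 : (n + 1) ^ 2 = n ^ 2 + (2 * n + 1) := by ring
    have h2 : en ((n + 1) ^ 2) ((S ^ (2 * n + 1)) (GG c n)) = en (n ^ 2) (GG c n) := by
      rw [h1, en_S_pow]
    have h3 : ∑ j ∈ range (2 ^ ((n + 1) ^ 2)),
        (S ^ (2 * n + 1)) (GG c n) j * rad ((n + 1) ^ 2) j = 0 := by
      have h6 := cross (n ^ 2 + 2 * n) ((S ^ (2 * n)) (GG c n))
      rw [show n ^ 2 + 2 * n + 1 = (n + 1) ^ 2 by ring] at h6
      rw [← h6, pow_succ' S (2 * n)]
      rfl
    have h4 := en_rad ((n + 1) ^ 2)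
    rw [← h2]
    rw [en] at h4
    rw [en, en]
    have h5 : ∀ j, ((S ^ (2 * n + 1)) (GG c n) + c n • rad ((n + 1) ^ 2)) j ^ 2 =
        (S ^ (2 * n + 1)) (GG c n) j ^ 2 +
          2 * c n * ((S ^ (2 * n + 1)) (GG c n) j * rad ((n + 1) ^ 2) j) +
            c n ^ 2 * rad ((n + 1) ^ 2) j ^ 2 := by
      intro j
      rw [Pi.add_apply, Pi.smul_apply, smul_eq_mul]
      ring
    simp only [h5]
    rw [Finset.sum_add_distrib, Finset.sum_add_distrib, ← Finset.mul_sum, ← Finset.mul_sum, h3]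
    linear_combination c n ^ 2 * h4

lemma sum_abs_le (m : ℕ) (g : ℕ → ℝ) : ∑ j ∈ range (2 ^ m), |g j| ≤ √(en m g) := by
  apply Real.le_sqrt_of_sq_le
  have := sq_sum_le_card_mul_sum_sq (s := range (2 ^ m)) (f := fun j => |g j|)
  rw [Finset.card_range] at this
  simp only [sq_abs] at this
  rw [en]
  push_cast at this
  exact this

lemma weakly_null {Y : Type} [NormedAddCommGroup Y] [NormedSpace ℝ Y] {J : XX hp →ₗ[ℝ] Y}
    (hJ : ∀ x, ‖J x‖ ≤ NN hp x) (f : StrongDual ℝ Y) :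
    Tendsto (fun n => f (J (el hp (n + 1) (rad ((n + 1) ^ 2))))) atTop (𝓝 0) := by
  set c : ℕ → ℝ := fun n => f (J (el hp (n + 1) (rad ((n + 1) ^ 2)))) with hc
  have hb : ∀ n, ∑ i ∈ range n, c i ^ 2 ≤ ‖f‖ ^ 2 := by
    intro n
    set s := ∑ i ∈ range n, c i ^ 2 with hs
    have hs0 : 0 ≤ s := Finset.sum_nonneg fun _ _ => sq_nonneg _
    have h1 : s = f (J (el hp n (GG c n))) := by
      rw [el_GG, map_sum, map_sum, hs]
      refine Finset.sum_congr rfl fun i _ => ?_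
      rw [map_smul, map_smul, smul_eq_mul, hc, sq]
    have h2 : s ≤ ‖f‖ * √s := by
      calc s = f (J (el hp n (GG c n))) := h1
        _ ≤ ‖f‖ * ‖J (el hp n (GG c n))‖ := (le_abs_self _).trans (f.le_opNorm _)
        _ ≤ ‖f‖ * √s := by
          refine mul_le_mul_of_nonneg_left ?_ (norm_nonneg _)
          refine (norm_J_el_le hp hJ n _).trans ((sum_abs_le _ _).trans (le_of_eq ?_))
          rw [en_GG]
    have h3 := Real.sq_sqrt hs0
    have h4 := Real.sqrt_nonneg s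
    rcases h4.eq_or_lt with h5 | h5
    · have h6 : s = 0 := by
        rw [← h3, ← h5]
        norm_num
      rw [h6]
      positivity
    · have h6 : √s ≤ ‖f‖ := by
        by_contra hcon
        push Not at hcon
        nlinarith
      nlinarith [norm_nonneg f]
  have hsum : Summable fun i => c i ^ 2 :=
    summable_of_sum_range_le (fun _ => sq_nonneg _) hb
  have h1 := hsum.tendsto_atTop_zero
  have h2 : Tendsto (fun n => |c n|) atTop (𝓝 0) := by
    have := (Real.continuous_sqrt.tendsto 0).comp h1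
    rw [Real.sqrt_zero] at this
    refine this.congr fun n => ?_
    exact Real.sqrt_sq_eq_abs _
  exact (tendsto_zero_iff_abs_tendsto_zero _).2 h2

/-- The functional that pairs an element with a Rademacher function. -/
noncomputable def psi (k : ℕ) : XX hp →ₗ[ℝ] ℝ where
  toFun f := ∑ j ∈ range (2 ^ (k ^ 2)), (-1) ^ j * (f : Arr) k j
  map_add' f g := by
    rw [← Finset.sum_add_distrib]
    exact Finset.sum_congr rfl fun j _ => by
      rw [Submodule.coe_add, Pi.add_apply, Pi.add_apply, mul_add]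
  map_smul' c f := by
    rw [RingHom.id_apply, smul_eq_mul, Finset.mul_sum]
    exact Finset.sum_congr rfl fun j _ => by
      rw [Submodule.coe_smul, Pi.smul_apply, Pi.smul_apply, smul_eq_mul, mul_left_comm]

lemma psi_le (k : ℕ) (f : XX hp) : ‖psi hp k f‖ ≤ NN hp f := by
  refine le_trans ?_ (sum_level_le hp f k (2 ^ (k ^ 2)))
  rw [Real.norm_eq_abs]
  refine (Finset.abs_sum_le_sum_abs (fun j => (-1) ^ j * (f : Arr) k j)
    (range (2 ^ (k ^ 2)))).trans (le_of_eq ?_)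
  refine Finset.sum_congr rfl fun j _ => ?_
  rw [abs_mul, abs_pow, abs_neg, abs_one, one_pow, one_mul]

lemma psi_rad (k : ℕ) : psi hp k (el hp k (rad (k ^ 2))) = 1 := by
  show ∑ j ∈ range (2 ^ (k ^ 2)), (-1) ^ j * ((el hp k (rad (k ^ 2)) : XX hp) : Arr) k j = 1
  rw [el_coe hp (rad_supp _), Qf_lev]
  have h1 : TT (k ^ 2) (k ^ 2) = 1 := by rw [TT, Nat.sub_self, pow_zero, pow_zero, mul_one]
  rw [h1]
  have h2 : ∀ j ∈ range (2 ^ (k ^ 2)),
      (-1) ^ j * (1 : Module.End ℝ (ℕ → ℝ)) (rad (k ^ 2)) j = (1 / 2) ^ (k ^ 2) := by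
    intro j hj
    rw [Module.End.one_apply, rad, if_pos (Finset.mem_range.1 hj), ← mul_assoc, ← mul_pow]
    norm_num
  rw [Finset.sum_congr rfl h2, Finset.sum_const, Finset.card_range, nsmul_eq_mul]
  push_cast
  rw [← mul_pow]
  norm_num

lemma not_schur {Y : Type} [NormedAddCommGroup Y] [NormedSpace ℝ Y] {J : XX hp →ₗ[ℝ] Y}
    (hE : IsEnvelope (NN hp) Y J) : ¬ Schur Y := by
  obtain ⟨-, hJ, hU⟩ := hE
  intro hS
  have h1 := hS (fun n => J (el hp (n + 1) (rad ((n + 1) ^ 2)))) (weakly_null hp hJ)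
  have h2 := h1.norm
  rw [norm_zero] at h2
  have h3 : ∀ n, 1 ≤ ‖J (el hp (n + 1) (rad ((n + 1) ^ 2)))‖ := by
    intro n
    obtain ⟨T', hT1, hT2⟩ := hU ℝ (psi hp (n + 1)) (psi_le hp (n + 1))
    refine le_trans ?_ (hT1 _)
    rw [hT2, psi_rad]
    simp
  have h4 := ge_of_tendsto' h2 h3
  norm_num at h4

end envelope

/-- For every `0 < p < 1` there is a real quasi-Banach space with the Schur `p`-property whose
Banach envelope fails the Schur property. -/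
theorem result : ∀ p : ℝ, 0 < p → p < 1 →
    ∃ (X : Type) (_ : AddCommGroup X) (_ : Module ℝ X) (N : X → ℝ),
      IsQuasiBanach N ∧ SchurP N p ∧
      (∃ (Y : Type) (_ : NormedAddCommGroup Y) (_ : NormedSpace ℝ Y) (J : X →ₗ[ℝ] Y),
        IsEnvelope N Y J) ∧
      ∀ (Y : Type) [NormedAddCommGroup Y] [NormedSpace ℝ Y] (J : X →ₗ[ℝ] Y),
        IsEnvelope N Y J → ¬ Schur Y := by
  intro p hp0 hp1
  have hp : 0 < p ∧ p < 1 := ⟨hp0, hp1⟩
  exact ⟨XX hp, inferInstance, inferInstance, NN hp, isQuasiBanach hp, schurP hp,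
    ⟨Env (isQuasiBanach hp), inferInstance, inferInstance, envMap (isQuasiBanach hp),
      isEnvelope (isQuasiBanach hp)⟩, fun Y _ _ J hE => not_schur hp hE⟩

end Pool.Agent.Results.MP_4b0054_an.SchurEnvelopeFails
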